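import Pool.Agent.X184.SS.Stm

set_option autoImplicit false

namespace Pool.Agent.X267.SS

open Finset

/-- signed sum -/
def sg {p : ℕ} (a : Fin p → ℝ) (s : Fin p → Bool) : ℝ := ∑ i, (if s i then a i else - a i)

theorem sum_succ {p : ℕ} (a : Fin (p + 1) → ℝ) (F : ℝ → ℝ) :
    ∑ s : Fin (p + 1) → Bool, F (sg a s)
      = ∑ s : Fin p → Bool, (F (a 0 + sg (Fin.tail a) s) + F (- a 0 + sg (Fin.tail a) s)) := by
  rw [← (Fin.consEquiv (fun _ : Fin (p + 1) => Bool)).sum_comp, Fintype.sum_prod_type,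
    Fintype.sum_bool, ← Finset.sum_add_distrib]
  refine Finset.sum_congr rfl fun s _ => ?_
  simp [sg, Fin.consEquiv, Fin.sum_univ_succ, Fin.tail]

theorem m2 : ∀ (p : ℕ) (a : Fin p → ℝ),
    ∑ s : Fin p → Bool, (sg a s) ^ 2 = 2 ^ p * ∑ i, a i ^ 2 := by
  intro p
  induction p with
  | zero => intro a; simp [sg]
  | succ p ih =>
    intro a
    rw [sum_succ a (fun x => x ^ 2)]
    have h : ∀ s : Fin p → Bool, ((a 0 + sg (Fin.tail a) s) ^ 2 + (- a 0 + sg (Fin.tail a) s) ^ 2)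
        = 2 * a 0 ^ 2 + 2 * (sg (Fin.tail a) s) ^ 2 := fun s => by ring
    simp only [h]
    have e1 : ∑ s : Fin p → Bool, 2 * (sg (Fin.tail a) s) ^ 2
        = 2 * (2 ^ p * ∑ i, Fin.tail a i ^ 2) := by rw [← Finset.mul_sum, ih]
    rw [Finset.sum_add_distrib, e1, Fin.sum_univ_succ]
    simp only [Finset.sum_const, Finset.card_univ, Fintype.card_pi, Fintype.card_bool,
      Finset.prod_const, Fintype.card_fin, nsmul_eq_mul, Fin.tail]
    push_cast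
    ring

theorem m4 : ∀ (p : ℕ) (a : Fin p → ℝ),
    ∑ s : Fin p → Bool, (sg a s) ^ 4 ≤ 3 * 2 ^ p * (∑ i, a i ^ 2) ^ 2 := by
  intro p
  induction p with
  | zero => intro a; simp [sg]
  | succ p ih =>
    intro a
    rw [sum_succ a (fun x => x ^ 4)]
    have h : ∀ s : Fin p → Bool, ((a 0 + sg (Fin.tail a) s) ^ 4 + (- a 0 + sg (Fin.tail a) s) ^ 4)
        = 2 * a 0 ^ 4 + 12 * a 0 ^ 2 * (sg (Fin.tail a) s) ^ 2 + 2 * (sg (Fin.tail a) s) ^ 4 :=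
      fun s => by ring
    simp only [h]
    have e1 : ∑ s : Fin p → Bool, 12 * a 0 ^ 2 * (sg (Fin.tail a) s) ^ 2
        = 12 * a 0 ^ 2 * (2 ^ p * ∑ i, Fin.tail a i ^ 2) := by rw [← Finset.mul_sum, m2]
    have e2 : ∑ s : Fin p → Bool, 2 * (sg (Fin.tail a) s) ^ 4
        = 2 * ∑ s : Fin p → Bool, (sg (Fin.tail a) s) ^ 4 := by rw [← Finset.mul_sum]
    rw [Finset.sum_add_distrib, Finset.sum_add_distrib, e1, e2, Fin.sum_univ_succ]
    simp only [Finset.sum_const, Finset.card_univ, Fintype.card_pi, Fintype.card_bool,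
      Finset.prod_const, Fintype.card_fin, nsmul_eq_mul]
    have h4 := ih (Fin.tail a)
    have ht : (∑ i, Fin.tail a i ^ 2) = ∑ i : Fin p, a i.succ ^ 2 := rfl
    rw [ht] at h4 ⊢
    have h2 : (0 : ℝ) < 2 ^ p := by positivity
    have h3 : 0 ≤ (2 : ℝ) ^ p * a 0 ^ 4 := by positivity
    push_cast
    have e3 : (2 : ℝ) ^ (p + 1) = 2 * 2 ^ p := by ring
    rw [e3]
    nlinarith [h4, h3]

theorem t_KH1 : Pool.Agent.X184.SS.S_KH1 := by
  intro p a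
  change Real.sqrt (∑ i, a i ^ 2) ≤ Real.sqrt 3 * ((∑ s : Fin p → Bool, |sg a s|) / 2 ^ p)
  have hA : 0 ≤ ∑ i, a i ^ 2 := Finset.sum_nonneg fun i _ => sq_nonneg _
  set c := Real.sqrt (∑ i, a i ^ 2) with hc
  have hc2 : c ^ 2 = ∑ i, a i ^ 2 := Real.sq_sqrt hA
  have hc0 : 0 ≤ c := Real.sqrt_nonneg _
  have h30 : 0 < Real.sqrt 3 := Real.sqrt_pos.mpr (by norm_num)
  have h32 : Real.sqrt 3 ^ 2 = 3 := Real.sq_sqrt (by norm_num)
  have hP : (0 : ℝ) < 2 ^ p := by positivity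
  rcases eq_or_lt_of_le hc0 with h0 | h0
  · rw [← h0]; positivity
  have key : ∀ x : ℝ, Real.sqrt 3 * (9 * c ^ 2 * x ^ 2 - x ^ 4) ≤ 18 * c ^ 3 * |x| := by
    intro x
    have hx : x ^ 2 = |x| ^ 2 := (sq_abs x).symm
    have hx4 : x ^ 4 = |x| ^ 4 := by
      rw [show x ^ 4 = (x ^ 2) ^ 2 by ring, hx]; ring
    rw [hx, hx4]
    set y := |x|
    have hy : 0 ≤ y := abs_nonneg x
    have e : 18 * c ^ 3 * y - Real.sqrt 3 * (9 * c ^ 2 * y ^ 2 - y ^ 4)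
        = Real.sqrt 3 * (y * ((y - Real.sqrt 3 * c) ^ 2 * (y + 2 * Real.sqrt 3 * c))) := by
      have e3 : Real.sqrt 3 ^ 3 = 3 * Real.sqrt 3 := by
        rw [pow_succ, h32]
      have e4 : Real.sqrt 3 ^ 4 = 9 := by
        rw [show Real.sqrt 3 ^ 4 = (Real.sqrt 3 ^ 2) ^ 2 by ring, h32]; norm_num
      ring_nf
      rw [e3, e4]
      ring
    have h1 : 0 ≤ Real.sqrt 3 * (y * ((y - Real.sqrt 3 * c) ^ 2 * (y + 2 * Real.sqrt 3 * c))) := by
      positivity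
    linarith
  have hs : ∑ s : Fin p → Bool, Real.sqrt 3 * (9 * c ^ 2 * (sg a s) ^ 2 - (sg a s) ^ 4)
      ≤ ∑ s : Fin p → Bool, 18 * c ^ 3 * |sg a s| := Finset.sum_le_sum fun s _ => key _
  rw [← Finset.mul_sum, ← Finset.mul_sum, Finset.sum_sub_distrib, ← Finset.mul_sum, m2, ← hc2] at hs
  have h4 := m4 p a
  rw [← hc2] at h4
  set T := ∑ s : Fin p → Bool, |sg a s|
  have h5 : Real.sqrt 3 * (6 * 2 ^ p * c ^ 4) ≤ 18 * c ^ 3 * T := by
    refine le_trans (mul_le_mul_of_nonneg_left ?_ h30.le) hs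
    nlinarith [h4]
  have h6 : Real.sqrt 3 * (2 ^ p * c) ≤ 3 * T := by
    have hc3 : 0 < 6 * c ^ 3 := by positivity
    have : (6 * c ^ 3) * (Real.sqrt 3 * (2 ^ p * c)) ≤ (6 * c ^ 3) * (3 * T) := by
      calc (6 * c ^ 3) * (Real.sqrt 3 * (2 ^ p * c)) = Real.sqrt 3 * (6 * 2 ^ p * c ^ 4) := by ring
        _ ≤ 18 * c ^ 3 * T := h5
        _ = (6 * c ^ 3) * (3 * T) := by ring
    exact le_of_mul_le_mul_left this hc3
  rw [← mul_div_assoc, le_div_iff₀ hP]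
  have h7 : Real.sqrt 3 * (Real.sqrt 3 * (2 ^ p * c)) ≤ Real.sqrt 3 * (3 * T) :=
    mul_le_mul_of_nonneg_left h6 h30.le
  have h8 : Real.sqrt 3 * (Real.sqrt 3 * (2 ^ p * c)) = 3 * (2 ^ p * c) := by
    rw [← mul_assoc, ← pow_two, h32]
  rw [h8] at h7
  linarith

end Pool.Agent.X267.SS
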