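import Pool.Agent.X184.SS.Stm2

set_option autoImplicit false

namespace Pool.Agent.X267.SS

open Finset Pool.Agent.X184.SS

theorem joint_aux (n p : ℕ) (N : Set ℕ) (ε : ℝ) (hε : 0 < ε)
    (h : ∀ u : ℕ, ∃ (z : ℕ →₀ ℝ) (G : Fin p → Finset ℕ), (∀ j, 0 ≤ z j) ∧
      ∑ j ∈ z.support, z j = 1 ∧
      (∀ j ∈ z.support, j ∈ N ∧ u ≤ j) ∧ z.support ⊆ univ.biUnion G ∧ (∀ r, G r ∈ Sch n) ∧
      (∀ r s, r < s → ∀ a ∈ G r, ∀ b ∈ G s, a < b) ∧ (∀ r, ∀ a ∈ G r, a ∈ z.support) ∧
      ∀ F ∈ Sch n, ∑ j ∈ F, z j ≤ ε) :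
    ∀ k u : ℕ, ∃ (z : ℕ → ℕ →₀ ℝ) (G : ℕ → Finset ℕ),
      (∀ l j, 0 ≤ z l j) ∧ (∀ l < k, ∑ j ∈ (z l).support, z l j = 1) ∧
      (∀ l, k ≤ l → z l = 0) ∧
      (∀ l, ∀ j ∈ (z l).support, j ∈ N ∧ u ≤ j) ∧
      (∀ l l', l < l' → Disjoint (z l).support (z l').support) ∧
      (∀ l, ∀ F ∈ Sch n, ∑ j ∈ F, z l j ≤ ε) ∧
      (∀ r < k * p, G r ∈ Sch n) ∧
      (∀ r s, r < s → s < k * p → ∀ a ∈ G r, ∀ b ∈ G s, a < b) ∧
      (∀ r < k * p, ∀ a ∈ G r, u ≤ a) ∧
      (∀ l, (z l).support ⊆ (range (k * p)).biUnion G) := by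
  intro k
  induction k with
  | zero =>
    intro u
    refine ⟨fun _ => 0, fun _ => ∅, ?_, ?_, ?_, ?_, ?_, ?_, ?_, ?_, ?_, ?_⟩
    · intro l j; simp
    · intro l hl; exact absurd hl (Nat.not_lt_zero _)
    · intro l _; rfl
    · intro l j hj; simp at hj
    · intro l l' _; simp
    · intro l F _; simpa using hε.le
    · intro r hr; simp at hr
    · intro r s _ hs; simp at hs
    · intro r hr; simp at hr
    · intro l; simp
  | succ k ih =>
    intro u
    obtain ⟨z0, G0, a1, a2, a3, a4, a5, a6, a7, a8⟩ := h u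
    set v := max u (z0.support.sup id + 1) with hv
    obtain ⟨z1, G1, b1, b2, b3, b4, b5, b6, b7, b8, b9, b10⟩ := ih v
    have huv : u ≤ v := le_max_left _ _
    have hsv : ∀ j ∈ z0.support, j < v := fun j hj => by
      have : j ≤ z0.support.sup id := Finset.le_sup (f := id) hj
      have h2 : z0.support.sup id + 1 ≤ v := le_max_right _ _
      omega
    have e : (k + 1) * p = p + k * p := by ring
    refine ⟨fun l => Nat.casesOn l z0 z1,
      fun r => if h : r < p then G0 ⟨r, h⟩ else G1 (r - p), ?_, ?_, ?_, ?_, ?_, ?_, ?_, ?_, ?_, ?_⟩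
    · intro l j
      cases l with
      | zero => exact a1 j
      | succ l => exact b1 l j
    · intro l hl
      cases l with
      | zero => exact a2
      | succ l => exact b2 l (by omega)
    · intro l hl
      cases l with
      | zero => omega
      | succ l => exact b3 l (by omega)
    · intro l j hj
      cases l with
      | zero => exact a3 j hj
      | succ l => exact ⟨(b4 l j hj).1, le_trans huv (b4 l j hj).2⟩
    · intro l l' hl
      cases l' with
      | zero => omega
      | succ l' =>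
        cases l with
        | zero =>
          rw [Finset.disjoint_left]
          intro j hj hj'
          have h1 := hsv j hj
          have h2 := (b4 l' j hj').2
          omega
        | succ l => exact b5 l l' (by omega)
    · intro l F hF
      cases l with
      | zero => exact a8 F hF
      | succ l => exact b6 l F hF
    · intro r hr
      simp only
      split_ifs with h1
      · exact a5 _
      · exact b7 _ (by omega)
    · intro r s hrs hs a ha b hb
      simp only at ha hb
      split_ifs at ha hb with h1 h2 h2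
      · exact a6 _ _ (by simpa [Fin.lt_def] using hrs) a ha b hb
      · have h3 := hsv a (a7 _ a ha)
        have h4 := b9 (s - p) (by omega) b hb
        omega
      · omega
      · exact b8 (r - p) (s - p) (by omega) (by omega) a ha b hb
    · intro r hr a ha
      simp only at ha
      split_ifs at ha with h1
      · exact (a3 a (a7 _ a ha)).2
      · exact le_trans huv (b9 (r - p) (by omega) a ha)
    · intro l j hj
      rw [Finset.mem_biUnion]
      cases l with
      | zero =>
        obtain ⟨r, _, hr⟩ := Finset.mem_biUnion.1 (a4 hj)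
        refine ⟨r.1, Finset.mem_range.2 (by have := r.2; omega), ?_⟩
        simp only [r.2, dif_pos]
        exact hr
      | succ l =>
        obtain ⟨r, hr0, hr⟩ := Finset.mem_biUnion.1 (b10 l hj)
        refine ⟨p + r, Finset.mem_range.2 (by have := Finset.mem_range.1 hr0; omega), ?_⟩
        have h1 : ¬ (p + r < p) := by omega
        simp only [h1, dif_neg, not_false_eq_true]
        simpa using hr

theorem t_JOINT : S_JOINT := by
  intro uni her lem n N hN ε hε d u
  obtain ⟨p, hp⟩ := lem n N hN ε hε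
  obtain ⟨z, G, c1, c2, c3, c4, c5, c6, c7, c8, c9, c10⟩ :=
    joint_aux n p N ε hε hp d (max u (d * p))
  refine ⟨z, c1, c2, c3, ?_, ?_, ?_, c6⟩
  · intro l j hj
    exact ⟨(c4 l j hj).1, le_trans (le_max_left _ _) (c4 l j hj).2⟩
  · intro l l' hll
    rcases lt_or_gt_of_ne hll with h | h
    · exact c5 l l' h
    · exact (c5 l' l h).symm
  · have h1 : (univ : Finset (Fin (d * p))).biUnion (fun i => G i.1) ∈ Sch (n + 1) := by
      refine uni n (d * p) (fun i => G i.1) (fun i => c7 _ i.2) ?_ ?_
      · intro i j hij a ha b hb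
        exact c8 i.1 j.1 hij j.2 a ha b hb
      · intro i a ha
        have h2 := c9 i.1 i.2 a ha
        have h3 : d * p ≤ max u (d * p) := le_max_right _ _
        omega
    refine her (n + 1) _ _ h1 ?_
    intro j hj
    obtain ⟨l, _, hl⟩ := Finset.mem_biUnion.1 hj
    obtain ⟨r, hr0, hr⟩ := Finset.mem_biUnion.1 (c10 l hl)
    exact Finset.mem_biUnion.2 ⟨⟨r, Finset.mem_range.1 hr0⟩, Finset.mem_univ _, hr⟩

end Pool.Agent.X267.SS
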